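import Pool.Agent.H41.AV.Defs

/-! The transfer from groups to `Fin n`. -/

set_option autoImplicit false

namespace Pool.Agent.H655.AV

open Equiv Finset Pool.Agent.H41.AV

theorem final (ha : S_ASY) : S_FINAL := by
  intro ε hε
  obtain ⟨n₀, h⟩ := ha ε hε
  refine ⟨max n₀ 1, fun n hn A hA => ?_⟩
  have hn1 : 1 ≤ n := (le_max_right n₀ 1).trans hn
  haveI : NeZero n := ⟨by omega⟩
  let A' : Fin n → Fin n → Option (Fin n) := fun i j =>
    if h : A i j = 0 then none else some ((A i j).pred h)
  have key : ∀ i j x, A' i j = some x ↔ A i j = x.succ := by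
    intro i j x
    show (if h : A i j = 0 then none else some ((A i j).pred h)) = some x ↔ _
    by_cases h0 : A i j = 0
    · rw [dif_pos h0, h0]
      constructor
      · intro e
        simp at e
      · intro e
        exact absurd e.symm (Fin.succ_ne_zero x)
    · rw [dif_neg h0]
      constructor
      · intro e
        have e1 := Option.some.inj e
        rw [← e1, Fin.succ_pred]
      · intro e
        congr 1
        apply Fin.succ_injective
        rw [Fin.succ_pred]
        exact e
  obtain ⟨L, h1, h2, h3⟩ := h (Fin n) A' (by
    rw [Fintype.card_fin]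
    exact (le_max_left _ _).trans hn) (fun x => by
    have h4 : cells A' x = univ.filter fun p : Fin n × Fin n => A p.1 p.2 = x.succ := by
      unfold cells
      ext p
      simp only [mem_filter, mem_univ, true_and]
      exact key _ _ _
    rw [h4, Fintype.card_fin]
    exact hA _ (Fin.succ_ne_zero x))
  refine ⟨L, h1, h2, fun i j e => h3 i j ((key i j _).2 (Fin.ext ?_))⟩
  rw [e, Fin.val_succ]

end Pool.Agent.H655.AV
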